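import Mathlib

set_option autoImplicit false

/-! # Values of `Q (Q θ - P)` for numbers whose partial quotients tend to infinity -/

namespace Pool.Agent.H51.AS

open Filter

/-- two neighbouring vectors: a vector with bounded determinants against both has an almost integral value -/
theorem near (q1 p1 q2 p2 Q P : ℤ) (θ K : ℝ) (hdet : |p1 * q2 - p2 * q1| = 1) (hq : 0 < q1) (hle : q1 ≤ q2)
    (h1 : |(Q : ℝ) * p1 - P * q1| ≤ K) (h2 : |(Q : ℝ) * p2 - P * q2| ≤ K) :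
    ∃ m : ℤ, |(Q : ℝ) * (Q * θ - P) - m| ≤
      K ^ 2 * (q1 * |q1 * θ - p1| + 3 * (q2 * |q2 * θ - p2|)) := by
  set s : ℤ := p1 * q2 - p2 * q1 with hs
  have hs2 : s ^ 2 = 1 := by
    have := sq_abs s
    rw [← this, hdet]; norm_num
  have hs2R : (s : ℝ) ^ 2 = 1 := by exact_mod_cast hs2
  refine ⟨(Q * p1 - P * q1) * (Q * p2 - P * q2) * s, ?_⟩
  set e1 : ℝ := q1 * θ - p1 with he1
  set e2 : ℝ := q2 * θ - p2 with he2
  set D1 : ℝ := (Q : ℝ) * p1 - P * q1 with hD1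
  set D2 : ℝ := (Q : ℝ) * p2 - P * q2 with hD2
  have hq1 : (0 : ℝ) < q1 := by exact_mod_cast hq
  have hle' : (q1 : ℝ) ≤ q2 := by exact_mod_cast hle
  have hq2 : (0 : ℝ) < q2 := lt_of_lt_of_le hq1 hle'
  have hsR : (s : ℝ) = p1 * q2 - p2 * q1 := by rw [hs]; push_cast; ring
  have hid : (Q : ℝ) * (Q * θ - P) - (((Q * p1 - P * q1) * (Q * p2 - P * q2) * s : ℤ) : ℝ) =
      D2 ^ 2 * (q1 * e1) + D1 ^ 2 * (q2 * e2) - 2 * (D1 * D2) * (q1 * e2) := by
    have e : (Q : ℝ) * (Q * θ - P) = s ^ 2 * ((Q : ℝ) * (Q * θ - P)) := by rw [hs2R, one_mul]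
    rw [e]
    push_cast
    rw [hsR, hD1, hD2, he1, he2]
    ring
  rw [hid]
  have hK : 0 ≤ K := le_trans (abs_nonneg _) h1
  have a1 : D2 ^ 2 ≤ K ^ 2 := by
    rw [← sq_abs D2]; exact pow_le_pow_left₀ (abs_nonneg _) h2 2
  have a2 : D1 ^ 2 ≤ K ^ 2 := by
    rw [← sq_abs D1]; exact pow_le_pow_left₀ (abs_nonneg _) h1 2
  have a3 : |D1 * D2| ≤ K ^ 2 := by
    rw [abs_mul, sq]; exact mul_le_mul h1 h2 (abs_nonneg _) hK
  have b1 : |D2 ^ 2 * (q1 * e1)| ≤ K ^ 2 * (q1 * |e1|) := by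
    rw [abs_mul, abs_of_nonneg (sq_nonneg D2), abs_mul, abs_of_pos hq1]
    exact mul_le_mul_of_nonneg_right a1 (by positivity)
  have b2 : |D1 ^ 2 * (q2 * e2)| ≤ K ^ 2 * (q2 * |e2|) := by
    rw [abs_mul, abs_of_nonneg (sq_nonneg D1), abs_mul, abs_of_pos hq2]
    exact mul_le_mul_of_nonneg_right a2 (by positivity)
  have b3 : |2 * (D1 * D2) * (q1 * e2)| ≤ 2 * K ^ 2 * (q2 * |e2|) := by
    rw [abs_mul, abs_mul, abs_of_pos (by norm_num : (0 : ℝ) < 2), abs_mul (q1 : ℝ) e2, abs_of_pos hq1]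
    have c1 : (q1 : ℝ) * |e2| ≤ q2 * |e2| := mul_le_mul_of_nonneg_right hle' (abs_nonneg _)
    exact mul_le_mul (by linarith) c1 (by positivity) (by positivity)
  calc |D2 ^ 2 * (q1 * e1) + D1 ^ 2 * (q2 * e2) - 2 * (D1 * D2) * (q1 * e2)|
      ≤ |D2 ^ 2 * (q1 * e1) + D1 ^ 2 * (q2 * e2)| + |2 * (D1 * D2) * (q1 * e2)| := abs_sub _ _
    _ ≤ |D2 ^ 2 * (q1 * e1)| + |D1 ^ 2 * (q2 * e2)| + |2 * (D1 * D2) * (q1 * e2)| := by
        gcongr; exact abs_add_le _ _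
    _ ≤ K ^ 2 * (q1 * |e1|) + K ^ 2 * (q2 * |e2|) + 2 * K ^ 2 * (q2 * |e2|) := by
        gcongr
    _ = K ^ 2 * (q1 * |e1| + 3 * (q2 * |e2|)) := by ring

/-- consecutive fractions `p j / q j`, with neighbours of determinant `± 1`, and `q j |q j θ - p j| → 0` -/
def Fast (θ : ℝ) : Prop :=
  ∃ p q : ℕ → ℤ, 0 < q 0 ∧ Monotone q ∧ Tendsto (fun j => (q j : ℝ)) atTop atTop ∧
    (∀ j, |p j * q (j + 1) - p (j + 1) * q j| = 1) ∧
    Tendsto (fun j => (q j : ℝ) * |(q j : ℝ) * θ - p j|) atTop (nhds 0)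

theorem neigh (q1 p1 q2 p2 : ℤ) (θ δ : ℝ) (hdet : |p1 * q2 - p2 * q1| = 1) (hq : 0 < q1) (hle : q1 ≤ q2)
    (h2 : (q2 : ℝ) * |q2 * θ - p2| ≤ δ) : (q2 : ℝ) * |q1 * θ - p1| ≤ 1 + δ := by
  have hq1 : (0 : ℝ) < q1 := by exact_mod_cast hq
  have hle' : (q1 : ℝ) ≤ q2 := by exact_mod_cast hle
  have hq2 : (0 : ℝ) < q2 := lt_of_lt_of_le hq1 hle'
  have hid : (q2 : ℝ) * (q1 * θ - p1) = q1 * (q2 * θ - p2) - ((p1 * q2 - p2 * q1 : ℤ) : ℝ) := by
    push_cast; ring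
  have hdetR : |((p1 * q2 - p2 * q1 : ℤ) : ℝ)| = 1 := by rw [← Int.cast_abs, hdet]; simp
  calc (q2 : ℝ) * |q1 * θ - p1| = |(q2 : ℝ) * (q1 * θ - p1)| := by rw [abs_mul, abs_of_pos hq2]
    _ ≤ |(q1 : ℝ) * (q2 * θ - p2)| + |((p1 * q2 - p2 * q1 : ℤ) : ℝ)| := by rw [hid]; exact abs_sub _ _
    _ = q1 * |q2 * θ - p2| + 1 := by rw [hdetR, abs_mul, abs_of_pos hq1]
    _ ≤ q2 * |q2 * θ - p2| + 1 := by gcongr
    _ ≤ 1 + δ := by linarith

theorem key (θ : ℝ) (h : Fast θ) (M ε : ℝ) (hM : 1 ≤ M) (hε : 0 < ε) :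
    ∃ Q0 : ℝ, ∀ Q P : ℤ, IsCoprime Q P → Q0 ≤ Q → (Q : ℝ) * |Q * θ - P| ≤ M →
      ∃ m : ℤ, |(Q : ℝ) * (Q * θ - P) - m| ≤ ε := by
  obtain ⟨p, q, hq0, hmono, htop, hdet, hA⟩ := h
  have hqpos : ∀ j, 0 < q j := fun j => lt_of_lt_of_le hq0 (hmono (Nat.zero_le j))
  set δ : ℝ := min (1 / 2) (ε / (100 * M ^ 2)) with hδ
  have hδ0 : 0 < δ := by rw [hδ]; positivity
  have hδ1 : δ ≤ 1 / 2 := min_le_left _ _
  have hδ2 : 100 * M ^ 2 * δ ≤ ε := by
    have : δ ≤ ε / (100 * M ^ 2) := min_le_right _ _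
    rw [le_div_iff₀ (by positivity)] at this
    linarith
  obtain ⟨J, hJ⟩ := (hA.eventually_lt_const hδ0).exists_forall_of_atTop
  have hJ' : ∀ j, J ≤ j → (q j : ℝ) * |(q j : ℝ) * θ - p j| ≤ δ := fun j hj => (hJ j hj).le
  refine ⟨max 1 ((q (J + 1) : ℝ)), ?_⟩
  intro Q P hcop hQ hval
  have hQ1 : (1 : ℝ) ≤ Q := le_trans (le_max_left _ _) hQ
  have hQJ : (q (J + 1) : ℝ) ≤ Q := le_trans (le_max_right _ _) hQ
  have hQJ' : q (J + 1) ≤ Q := by exact_mod_cast hQJ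
  have hQ0 : (0 : ℝ) < Q := by linarith
  -- the index
  have hex : ∃ j, Q < q (j + 1) := by
    have h1 : ∀ᶠ j in atTop, (Q : ℝ) < q j := htop.eventually_gt_atTop _
    obtain ⟨n, hn⟩ := h1.exists_forall_of_atTop
    exact ⟨n, by exact_mod_cast hn (n + 1) (by omega)⟩
  classical
  set j := Nat.find hex with hj
  have hj1 : Q < q (j + 1) := Nat.find_spec hex
  have hjJ : J + 1 ≤ j := by
    by_contra hcon
    have : q (j + 1) ≤ q (J + 1) := hmono (by omega)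
    omega
  have hj0 : q j ≤ Q := by
    by_contra hcon
    push Not at hcon
    obtain ⟨i, hi⟩ : ∃ i, j = i + 1 := ⟨j - 1, by omega⟩
    have : Q < q (i + 1) := by rw [← hi]; exact hcon
    exact Nat.find_min hex (by omega : i < Nat.find hex) this
  obtain ⟨i, hi⟩ : ∃ i, j = i + 1 := ⟨j - 1, by omega⟩
  have hiJ : J ≤ i := by omega
  set E : ℝ := (Q : ℝ) * θ - P with hE
  have hA0 := hJ' i hiJ
  have hA1 := hJ' (i + 1) (by omega)
  have hA2 := hJ' (i + 2) (by omega)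
  rw [hi] at hj1 hj0
  have hj1R : (Q : ℝ) < q (i + 2) := by exact_mod_cast hj1
  have hj0R : (q (i + 1) : ℝ) ≤ Q := by exact_mod_cast hj0
  have qi0 : (0 : ℝ) < q i := by exact_mod_cast hqpos i
  have qi1 : (0 : ℝ) < q (i + 1) := by exact_mod_cast hqpos (i + 1)
  have qi2 : (0 : ℝ) < q (i + 2) := by exact_mod_cast hqpos (i + 2)
  have qle : (q i : ℝ) ≤ q (i + 1) := by exact_mod_cast hmono (Nat.le_succ i)
  have n1 := neigh (q i) (p i) (q (i + 1)) (p (i + 1)) θ δ (hdet i) (hqpos i) (hmono (Nat.le_succ i)) hA1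
  have n2 := neigh (q (i + 1)) (p (i + 1)) (q (i + 2)) (p (i + 2)) θ δ (hdet (i + 1)) (hqpos (i + 1))
    (hmono (Nat.le_succ (i + 1))) hA2
  -- determinants
  have hD : ∀ l, (Q : ℝ) * p l - P * q l = q l * E - Q * ((q l : ℝ) * θ - p l) := by
    intro l; rw [hE]; ring
  have hDle : ∀ l, |(Q : ℝ) * p l - P * q l| ≤ q l * |E| + Q * |(q l : ℝ) * θ - p l| := by
    intro l
    rw [hD l]
    have hl : (0 : ℝ) < q l := by exact_mod_cast hqpos l
    calc |(q l : ℝ) * E - Q * ((q l : ℝ) * θ - p l)| ≤ |(q l : ℝ) * E| + |(Q : ℝ) * ((q l : ℝ) * θ - p l)| :=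
          abs_sub _ _
      _ = q l * |E| + Q * |(q l : ℝ) * θ - p l| := by
          rw [abs_mul, abs_mul, abs_of_pos hl, abs_of_pos hQ0]
  have hval' : (Q : ℝ) * |E| ≤ M := hval
  -- middle determinant
  have hm1 : (q (i + 1) : ℝ) * |E| ≤ M := le_trans (mul_le_mul_of_nonneg_right hj0R (abs_nonneg _)) hval'
  have hm2 : (Q : ℝ) * |(q (i + 1) : ℝ) * θ - p (i + 1)| ≤ 3 / 2 := by
    have : (Q : ℝ) * |(q (i + 1) : ℝ) * θ - p (i + 1)| ≤ q (i + 2) * |(q (i + 1) : ℝ) * θ - p (i + 1)| :=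
      mul_le_mul_of_nonneg_right hj1R.le (abs_nonneg _)
    linarith
  have hDm : |(Q : ℝ) * p (i + 1) - P * q (i + 1)| ≤ 5 * M := by
    have := hDle (i + 1); linarith
  by_cases hz : Q * p (i + 1) - P * q (i + 1) = 0
  · -- the vector itself
    have hcq : IsCoprime (q (i + 1)) (p (i + 1)) := by
      have h1 := hdet (i + 1)
      rcases (abs_eq (by norm_num : (0 : ℤ) ≤ 1)).1 h1 with h2 | h2
      · exact ⟨-p (i + 2), q (i + 2), by linarith⟩
      · exact ⟨p (i + 2), -q (i + 2), by linarith⟩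
    have hd1 : q (i + 1) ∣ Q := by
      apply hcq.dvd_of_dvd_mul_right
      exact ⟨P, by linarith⟩
    have hd2 : Q ∣ q (i + 1) := by
      apply hcop.dvd_of_dvd_mul_left
      exact ⟨p (i + 1), by linarith⟩
    have hQpos : 0 < Q := by exact_mod_cast hQ0
    have heq : Q = q (i + 1) := Int.dvd_antisymm hQpos.le (hqpos _).le hd2 hd1
    have hP : P = p (i + 1) := by
      rw [heq] at hz
      have h1 : q (i + 1) * (p (i + 1) - P) = 0 := by linarith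
      rcases mul_eq_zero.1 h1 with h2 | h2
      · exact absurd h2 (hqpos _).ne'
      · linarith
    refine ⟨0, ?_⟩
    rw [hE, heq, hP, Int.cast_zero, sub_zero, abs_mul, abs_of_pos qi1]
    calc (q (i + 1) : ℝ) * |(q (i + 1) : ℝ) * θ - p (i + 1)| ≤ δ := hA1
      _ ≤ 100 * M ^ 2 * δ := by
          have h1 : 1 ≤ M ^ 2 := one_le_pow₀ hM
          nlinarith
      _ ≤ ε := hδ2
  · have hone : (1 : ℝ) ≤ |(Q : ℝ) * p (i + 1) - P * q (i + 1)| := by
      have h1 : 1 ≤ |Q * p (i + 1) - P * q (i + 1)| := Int.one_le_abs hz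
      have h2 : ((1 : ℤ) : ℝ) ≤ ((|Q * p (i + 1) - P * q (i + 1)| : ℤ) : ℝ) := Int.cast_le.2 h1
      push_cast at h2
      simpa using h2
    have hsum : 1 ≤ q (i + 1) * |E| + Q * |(q (i + 1) : ℝ) * θ - p (i + 1)| := hone.trans (hDle (i + 1))
    have hfin : ∀ A B : ℝ, A ≤ δ → B ≤ δ → (5 * M) ^ 2 * (A + 3 * B) ≤ ε := by
      intro A B hA' hB'
      have : (5 * M) ^ 2 * (A + 3 * B) ≤ (5 * M) ^ 2 * (δ + 3 * δ) := by
        apply mul_le_mul_of_nonneg_left _ (by positivity)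
        linarith
      nlinarith
    rcases le_total (1 / 2) ((q (i + 1) : ℝ) * |E|) with hc | hc
    · -- `Q ≤ 2 M q`
      have hQle : (Q : ℝ) ≤ 2 * M * q (i + 1) := by
        have h1 : (Q : ℝ) * (q (i + 1) * |E|) ≤ M * q (i + 1) := by
          calc (Q : ℝ) * (q (i + 1) * |E|) = (Q * |E|) * q (i + 1) := by ring
            _ ≤ M * q (i + 1) := mul_le_mul_of_nonneg_right hval' qi1.le
        have h2 : (Q : ℝ) * (1 / 2) ≤ Q * (q (i + 1) * |E|) := mul_le_mul_of_nonneg_left hc hQ0.le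
        linarith
      have hDa : |(Q : ℝ) * p i - P * q i| ≤ 5 * M := by
        have h0 := hDle i
        have h1 : (q i : ℝ) * |E| ≤ M :=
          le_trans (mul_le_mul_of_nonneg_right (qle.trans hj0R) (abs_nonneg _)) hval'
        have h2 : (Q : ℝ) * |(q i : ℝ) * θ - p i| ≤ 3 * M := by
          calc (Q : ℝ) * |(q i : ℝ) * θ - p i| ≤ (2 * M * q (i + 1)) * |(q i : ℝ) * θ - p i| :=
                mul_le_mul_of_nonneg_right hQle (abs_nonneg _)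
            _ = 2 * M * (q (i + 1) * |(q i : ℝ) * θ - p i|) := by ring
            _ ≤ 2 * M * (3 / 2) := by
                apply mul_le_mul_of_nonneg_left _ (by positivity)
                linarith
            _ = 3 * M := by ring
        linarith
      obtain ⟨m, hm⟩ := near (q i) (p i) (q (i + 1)) (p (i + 1)) Q P θ (5 * M) (hdet i) (hqpos i)
        (hmono (Nat.le_succ i)) hDa hDm
      exact ⟨m, hm.trans (hfin _ _ hA0 hA1)⟩
    · -- `q' ≤ 3 Q`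
      have hc' : 1 / 2 ≤ Q * |(q (i + 1) : ℝ) * θ - p (i + 1)| := by linarith
      have hQge : (q (i + 2) : ℝ) ≤ 3 * Q := by
        have h1 : (q (i + 2) : ℝ) * (Q * |(q (i + 1) : ℝ) * θ - p (i + 1)|) ≤ 3 / 2 * Q := by
          calc (q (i + 2) : ℝ) * (Q * |(q (i + 1) : ℝ) * θ - p (i + 1)|)
              = (q (i + 2) * |(q (i + 1) : ℝ) * θ - p (i + 1)|) * Q := by ring
            _ ≤ 3 / 2 * Q := by
                apply mul_le_mul_of_nonneg_right _ hQ0.le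
                linarith
        have h2 : (q (i + 2) : ℝ) * (1 / 2) ≤ q (i + 2) * (Q * |(q (i + 1) : ℝ) * θ - p (i + 1)|) :=
          mul_le_mul_of_nonneg_left hc' qi2.le
        linarith
      have hDb : |(Q : ℝ) * p (i + 2) - P * q (i + 2)| ≤ 5 * M := by
        have h0 := hDle (i + 2)
        have h1 : (q (i + 2) : ℝ) * |E| ≤ 3 * M := by
          calc (q (i + 2) : ℝ) * |E| ≤ 3 * Q * |E| := mul_le_mul_of_nonneg_right hQge (abs_nonneg _)
            _ = 3 * (Q * |E|) := by ring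
            _ ≤ 3 * M := by linarith
        have h2 : (Q : ℝ) * |(q (i + 2) : ℝ) * θ - p (i + 2)| ≤ 1 / 2 := by
          have : (Q : ℝ) * |(q (i + 2) : ℝ) * θ - p (i + 2)| ≤ q (i + 2) * |(q (i + 2) : ℝ) * θ - p (i + 2)| :=
            mul_le_mul_of_nonneg_right hj1R.le (abs_nonneg _)
          linarith
        linarith
      obtain ⟨m, hm⟩ := near (q (i + 1)) (p (i + 1)) (q (i + 2)) (p (i + 2)) Q P θ (5 * M) (hdet (i + 1))
        (hqpos (i + 1)) (hmono (Nat.le_succ (i + 1))) hDm hDb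
      exact ⟨m, hm.trans (hfin _ _ hA1 hA2)⟩

end Pool.Agent.H51.AS
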