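import Pool.Agent.H51.AS.Core
import Pool.Graph.R_pool_sql_team_seeded_f0cf7b00.H447R2.PE.Pade

set_option autoImplicit false

/-! # `coth (1 / k)` has partial quotients tending to infinity -/

namespace Pool.Agent.H51.AS

open Filter Pool.Agent.H447R2.PE

/-- the recurrence of the denominators -/
def cq (k : ℤ) : ℕ → ℤ
  | 0 => 1
  | 1 => 3 * k
  | (n + 2) => (2 * n + 5) * k * cq k (n + 1) + cq k n

/-- the recurrence of the numerators -/
def cp (k : ℤ) : ℕ → ℤ
  | 0 => k
  | 1 => 3 * k ^ 2 + 1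
  | (n + 2) => (2 * n + 5) * k * cp k (n + 1) + cp k n

theorem cdet (k : ℤ) (n : ℕ) : cp k n * cq k (n + 1) - cp k (n + 1) * cq k n = (-1) ^ (n + 1) := by
  induction n with
  | zero => simp only [cp, cq]; ring
  | succ n ih =>
    have e1 : cq k (n + 1 + 1) = (2 * n + 5) * k * cq k (n + 1) + cq k n := rfl
    have e2 : cp k (n + 1 + 1) = (2 * n + 5) * k * cp k (n + 1) + cp k n := rfl
    rw [e1, e2, pow_succ, ← ih]
    ring

theorem cq_pos (k : ℤ) (hk : 1 ≤ k) (n : ℕ) : 1 ≤ cq k n ∧ (n + 1) * cq k n ≤ cq k (n + 1) := by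
  induction n with
  | zero => simp only [cq]; constructor <;> norm_num; linarith
  | succ n ih =>
    obtain ⟨h1, h2⟩ := ih
    have e1 : cq k (n + 1 + 1) = (2 * n + 5) * k * cq k (n + 1) + cq k n := rfl
    have h3 : 1 ≤ cq k (n + 1) := by
      have : (0 : ℤ) ≤ n := by positivity
      nlinarith
    refine ⟨h3, ?_⟩
    rw [e1]
    push_cast
    have hn : (0 : ℤ) ≤ n := by positivity
    have h4 : (n + 1 + 1) * cq k (n + 1) ≤ (2 * n + 5) * k * cq k (n + 1) := by
      apply mul_le_mul_of_nonneg_right _ (by linarith)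
      nlinarith
    linarith

theorem cform (k : ℕ) (hk : 1 ≤ k) (n : ℕ) :
    (cq k n : ℝ) * (Real.exp (2 / (k : ℝ)) + 1) - cp k n * (Real.exp (2 / (k : ℝ)) - 1) =
      (-1) ^ n * E k (n + 1) := by
  induction n using Nat.twoStepInduction with
  | zero => simp only [cp, cq, E_one k hk]; push_cast; ring
  | one =>
    have h := E_rec k hk 0
    simp only [cp, cq]
    rw [show 1 + 1 = 0 + 2 by rfl, h, E_zero k hk, E_one k hk]
    push_cast
    ring
  | more n ih1 ih2 =>
    have e1 : cq k (n + 2) = (2 * n + 5) * k * cq k (n + 1) + cq k n := rfl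
    have e2 : cp k (n + 2) = (2 * n + 5) * k * cp k (n + 1) + cp k n := rfl
    have h := E_rec k hk (n + 1)
    rw [e1, e2, show n + 2 + 1 = n + 1 + 2 by rfl, h]
    push_cast
    have e3 : ((-1 : ℝ)) ^ (n + 2) = (-1) ^ n := by rw [pow_add]; norm_num
    have e4 : ((-1 : ℝ)) ^ (n + 1) = -(-1) ^ n := by rw [pow_succ]; ring
    rw [e3]
    rw [e4] at ih2
    linear_combination (2 * (n : ℝ) + 5) * k * ih2 + ih1

theorem exp_gt (k : ℕ) (hk : 1 ≤ k) : 0 < Real.exp (2 / (k : ℝ)) - 1 := by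
  rw [← E_zero k hk]; exact E_pos k 0 hk

/-- the number `coth (1 / k)` -/
theorem fast_coth (k : ℕ) (hk : 1 ≤ k) :
    Fast ((Real.exp (2 / (k : ℝ)) + 1) / (Real.exp (2 / (k : ℝ)) - 1)) := by
  have hx := exp_gt k hk
  set x := Real.exp (2 / (k : ℝ)) with hxdef
  set θ : ℝ := (x + 1) / (x - 1) with hθ
  have hkZ : (1 : ℤ) ≤ k := by exact_mod_cast hk
  have hpos := cq_pos k hkZ
  have hmono : Monotone (cq k) := by
    apply monotone_nat_of_le_succ
    intro n
    have h1 := hpos n
    have hn : (0 : ℤ) ≤ n := by positivity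
    nlinarith [h1.1, h1.2]
  have hge : ∀ n : ℕ, (n : ℤ) + 1 ≤ cq k (n + 1) := by
    intro n
    have h1 := hpos n
    have hn : (0 : ℤ) ≤ n := by positivity
    nlinarith [h1.1, h1.2]
  have hge' : ∀ n : ℕ, (n : ℝ) ≤ cq k n := by
    intro n
    rcases n with _ | n
    · have := (hpos 0).1
      have h2 : (1 : ℝ) ≤ cq k 0 := by exact_mod_cast this
      push_cast
      linarith
    · have := hge n
      exact_mod_cast this
  have herr : ∀ n : ℕ, (cq k n : ℝ) * θ - cp k n = (-1) ^ n * (E k (n + 1) / (x - 1)) := by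
    intro n
    have h := cform k hk n
    rw [← hxdef] at h
    rw [hθ]
    field_simp
    linarith
  refine ⟨cp k, cq k, by linarith [(hpos 0).1], hmono, ?_, ?_, ?_⟩
  · exact tendsto_atTop_mono hge' tendsto_natCast_atTop_atTop
  · intro j
    rw [cdet]
    simp
  · have hb : ∀ n : ℕ, (cq k n : ℝ) * |(cq k n : ℝ) * θ - cp k n| ≤ 1 / ((n : ℝ) + 1) := by
      intro n
      have hn1 : (0 : ℝ) < (n : ℝ) + 1 := by positivity
      rw [le_div_iff₀ hn1]
      have hdet : (cq k (n + 1) : ℝ) * (cq k n * θ - cp k n) - cq k n * (cq k (n + 1) * θ - cp k (n + 1)) =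
          -(-1) ^ (n + 1) := by
        have := cdet k n
        have h2 : ((cp k n * cq k (n + 1) - cp k (n + 1) * cq k n : ℤ) : ℝ) = (-1) ^ (n + 1) := by
          rw [this]; push_cast; rfl
        push_cast at h2
        linarith
      rw [herr n, herr (n + 1)] at hdet
      have hF1 : 0 < E k (n + 1) / (x - 1) := div_pos (E_pos k _ hk) hx
      have hF2 : 0 < E k (n + 1 + 1) / (x - 1) := div_pos (E_pos k _ hk) hx
      rw [herr n, abs_mul, abs_pow, abs_neg, abs_one, one_pow, one_mul, abs_of_pos hF1]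
      have hsum : (cq k (n + 1) : ℝ) * (E k (n + 1) / (x - 1)) + cq k n * (E k (n + 1 + 1) / (x - 1)) = 1 := by
        have e : ((-1 : ℝ)) ^ n * ((-1) ^ n) = 1 := by
          rw [← mul_pow]; norm_num
        have h3 : ((-1 : ℝ)) ^ n * ((cq k (n + 1) : ℝ) * (E k (n + 1) / (x - 1)) +
            cq k n * (E k (n + 1 + 1) / (x - 1))) = (-1) ^ n := by
          rw [pow_succ] at hdet
          linear_combination hdet
        have h4 : ((-1 : ℝ)) ^ n * ((-1 : ℝ) ^ n * ((cq k (n + 1) : ℝ) * (E k (n + 1) / (x - 1)) +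
            cq k n * (E k (n + 1 + 1) / (x - 1)))) = (-1) ^ n * (-1) ^ n := by rw [h3]
        rw [← mul_assoc, e, one_mul] at h4
        exact h4
      have hc0 : (0 : ℝ) < cq k n := by exact_mod_cast (hpos n).1
      have hle : ((n : ℝ) + 1) * cq k n ≤ cq k (n + 1) := by exact_mod_cast (hpos n).2
      have h5 : ((n : ℝ) + 1) * cq k n * (E k (n + 1) / (x - 1)) ≤
          cq k (n + 1) * (E k (n + 1) / (x - 1)) := mul_le_mul_of_nonneg_right hle hF1.le
      have h6 : 0 < (cq k n : ℝ) * (E k (n + 1 + 1) / (x - 1)) := mul_pos hc0 hF2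
      linarith
    exact squeeze_zero (fun n => by
      have : (0 : ℝ) < cq k n := by exact_mod_cast (hpos n).1
      positivity) hb tendsto_one_div_add_atTop_nhds_zero_nat

end Pool.Agent.H51.AS
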