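import Pool.Agent.H51.AS.Core

set_option autoImplicit false

/-! # Transfer to Moebius images -/

namespace Pool.Agent.H51.AS

open Filter

/-- `l` is a limit value of `den² |x - r|` along rationals `r` whose denominators tend to infinity -/
def ApproxLimit (x l : ℝ) : Prop :=
  ∀ ε : ℝ, 0 < ε → ∀ N : ℕ, ∃ r : ℚ, N ≤ r.den ∧ |(r.den : ℝ) ^ 2 * |x - r| - l| < ε

theorem Fast.irrational {θ : ℝ} (h : Fast θ) : Irrational θ := by
  obtain ⟨p, q, hq0, hmono, htop, hdet, hA⟩ := h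
  rintro ⟨r, rfl⟩
  have hqpos : ∀ j, 0 < q j := fun j => lt_of_lt_of_le hq0 (hmono (Nat.zero_le j))
  have hden : (0 : ℝ) < r.den := by exact_mod_cast r.den_pos
  have hs : (0 : ℝ) < 1 / (r.den : ℝ) := by positivity
  obtain ⟨J, hJ⟩ := (hA.eventually_lt_const hs).exists_forall_of_atTop
  have key : ∀ j, J ≤ j → q j * r.num = p j * r.den := by
    intro j hj
    by_contra hne
    have h1 : q j * r.num - p j * r.den ≠ 0 := sub_ne_zero.2 hne
    have h2 : (1 : ℝ) ≤ |((q j * r.num - p j * r.den : ℤ) : ℝ)| := by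
      have := Int.one_le_abs h1
      exact_mod_cast this
    have h3 : (q j : ℝ) * r - p j = ((q j * r.num - p j * r.den : ℤ) : ℝ) / r.den := by
      have : (r : ℝ) = r.num / r.den := by exact_mod_cast (Rat.num_div_den r).symm
      push_cast
      rw [this]
      field_simp
    have h4 := hJ j hj
    rw [h3, abs_div, abs_of_pos hden] at h4
    have h5 : (1 : ℝ) ≤ q j := by exact_mod_cast hqpos j
    have h6 : 1 / (r.den : ℝ) ≤ |((q j * r.num - p j * r.den : ℤ) : ℝ)| / r.den :=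
      div_le_div_of_nonneg_right h2 hden.le
    have h7 : |((q j * r.num - p j * r.den : ℤ) : ℝ)| / (r.den : ℝ) ≤
        q j * (|((q j * r.num - p j * r.den : ℤ) : ℝ)| / r.den) :=
      le_mul_of_one_le_left (by positivity) h5
    linarith
  have k0 := key J le_rfl
  have k1 := key (J + 1) (by omega)
  have h0 : (p J * q (J + 1) - p (J + 1) * q J) * (r.den : ℤ) = 0 := by
    linear_combination -(q (J + 1)) * k0 + q J * k1
  rcases mul_eq_zero.1 h0 with h1 | h1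
  · have := hdet J
    rw [h1] at this
    norm_num at this
  · exact absurd h1 (by exact_mod_cast r.den_nz)

theorem key2 (θ : ℝ) (h : Fast θ) (M ε : ℝ) (hM : 1 ≤ M) (hε : 0 < ε) (G : ℕ) (hG : 1 ≤ G) :
    ∃ Q0 : ℝ, ∀ Q P : ℤ, Int.gcd Q P ≤ G → Q0 ≤ |(Q : ℝ)| → |(Q : ℝ)| * |Q * θ - P| ≤ M →
      ∃ m : ℤ, |(Q : ℝ) * (Q * θ - P) - m| ≤ ε := by
  have hGR : (1 : ℝ) ≤ G := by exact_mod_cast hG
  obtain ⟨Q0, h0⟩ := key θ h M (ε / (G : ℝ) ^ 2) hM (by positivity)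
  refine ⟨G * max Q0 1, fun Q P hg hQ hv => ?_⟩
  have hQne : Q ≠ 0 := by
    rintro rfl
    have h1 : (G : ℝ) * 1 ≤ G * max Q0 1 := mul_le_mul_of_nonneg_left (le_max_right _ _) (by linarith)
    simp only [Int.cast_zero, abs_zero] at hQ
    linarith
  have gpos : 0 < Int.gcd Q P := Int.gcd_pos_of_ne_zero_left P hQne
  obtain ⟨Q1, P1, hcop, hQ1, hP1⟩ := Int.exists_gcd_one gpos
  set g := Int.gcd Q P with hgdef
  have hgR : (0 : ℝ) < g := by exact_mod_cast gpos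
  have hg1 : (1 : ℝ) ≤ g := by exact_mod_cast gpos
  have hgG : (g : ℝ) ≤ G := by exact_mod_cast hg
  have hcop' : IsCoprime Q1 P1 := Int.isCoprime_iff_gcd_eq_one.2 hcop
  have hQR : (Q : ℝ) = Q1 * g := by rw [hQ1]; push_cast; rfl
  have hPR : (P : ℝ) = P1 * g := by rw [hP1]; push_cast; rfl
  have hQ1ne : Q1 ≠ 0 := by
    rintro rfl
    apply hQne
    rw [hQ1, zero_mul]
  have hlow : Q0 ≤ |(Q1 : ℝ)| := by
    rw [hQR, abs_mul, abs_of_pos hgR] at hQ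
    have h1 : (g : ℝ) * max Q0 1 ≤ G * max Q0 1 :=
      mul_le_mul_of_nonneg_right hgG (le_trans zero_le_one (le_max_right _ _))
    have h2 : (g : ℝ) * max Q0 1 ≤ |(Q1 : ℝ)| * g := h1.trans hQ
    have h3 : max Q0 1 ≤ |(Q1 : ℝ)| := by
      rw [mul_comm] at h2
      exact le_of_mul_le_mul_right h2 hgR
    exact (le_max_left _ _).trans h3
  have hE : (Q : ℝ) * θ - P = g * (Q1 * θ - P1) := by rw [hQR, hPR]; ring
  have hval : |(Q1 : ℝ)| * |(Q1 : ℝ) * θ - P1| ≤ M := by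
    rw [hE, hQR, abs_mul, abs_mul, abs_of_pos hgR] at hv
    have h1 : |(Q1 : ℝ)| * |(Q1 : ℝ) * θ - P1| ≤ (|(Q1 : ℝ)| * |(Q1 : ℝ) * θ - P1|) * (g * g) :=
      le_mul_of_one_le_right (by positivity) (by nlinarith)
    calc _ ≤ _ := h1
      _ = |(Q1 : ℝ)| * g * (g * |(Q1 : ℝ) * θ - P1|) := by ring
      _ ≤ M := hv
  have hmain : ∃ m : ℤ, |(Q1 : ℝ) * (Q1 * θ - P1) - m| ≤ ε / (G : ℝ) ^ 2 := by
    rcases lt_or_gt_of_ne hQ1ne with hneg | hpos
    · have hnegR : (Q1 : ℝ) < 0 := by exact_mod_cast hneg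
      rw [abs_of_neg hnegR] at hlow hval
      obtain ⟨m, hm⟩ := h0 (-Q1) (-P1) hcop'.neg_neg (by push_cast; exact hlow) (by
        push_cast
        rw [show -(Q1 : ℝ) * θ - -(P1 : ℝ) = -(Q1 * θ - P1) by ring, abs_neg]
        exact hval)
      refine ⟨m, ?_⟩
      push_cast at hm
      rwa [show -(Q1 : ℝ) * (-(Q1 : ℝ) * θ - -(P1 : ℝ)) = Q1 * (Q1 * θ - P1) by ring] at hm
    · have hposR : (0 : ℝ) < Q1 := by exact_mod_cast hpos
      rw [abs_of_pos hposR] at hlow hval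
      exact h0 Q1 P1 hcop' hlow hval
  obtain ⟨m, hm⟩ := hmain
  refine ⟨(g : ℤ) ^ 2 * m, ?_⟩
  have e : (Q : ℝ) * (Q * θ - P) - (((g : ℤ) ^ 2 * m : ℤ) : ℝ) =
      (g : ℝ) ^ 2 * (Q1 * (Q1 * θ - P1) - m) := by
    rw [hE, hQR]; push_cast; ring
  rw [e, abs_mul, abs_of_pos (by positivity)]
  calc (g : ℝ) ^ 2 * |(Q1 : ℝ) * (Q1 * θ - P1) - m| ≤ (G : ℝ) ^ 2 * (ε / (G : ℝ) ^ 2) :=
        mul_le_mul (pow_le_pow_left₀ hgR.le hgG 2) hm (abs_nonneg _) (by positivity)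
    _ = ε := by
        field_simp

theorem nonneg_of_approx (x l : ℝ) (h : ApproxLimit x l) : 0 ≤ l := by
  by_contra hl
  push Not at hl
  obtain ⟨r, _, hr⟩ := h (-l) (by linarith) 0
  have h1 : 0 ≤ (r.den : ℝ) ^ 2 * |x - r| := by positivity
  rw [abs_lt] at hr
  linarith [hr.2]

theorem delta_ne (θ ξ : ℝ) (hθ : Irrational θ) (hξ : Irrational ξ) (a b c d : ℤ)
    (hne : ¬(a = 0 ∧ b = 0 ∧ c = 0 ∧ d = 0)) (hrel : (a : ℝ) + b * θ + c * ξ + d * (ξ * θ) = 0) :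
    b * c - a * d ≠ 0 := by
  intro h0
  have hlin : ∀ (z : ℝ), Irrational z → ∀ u v : ℤ, (u : ℝ) + v * z = 0 → u = 0 ∧ v = 0 := by
    intro z hz u v huv
    by_cases hv : v = 0
    · subst hv
      simp only [Int.cast_zero, zero_mul, add_zero] at huv
      exact ⟨by exact_mod_cast huv, rfl⟩
    · exfalso
      have hvR : (v : ℝ) ≠ 0 := by exact_mod_cast hv
      apply hz
      refine ⟨-(u : ℚ) / v, ?_⟩
      push_cast
      field_simp
      linarith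
  have hprod : ((c : ℝ) + d * θ) * (b + d * ξ) = 0 := by
    have h1 : ((b * c - a * d : ℤ) : ℝ) = 0 := by rw [h0]; simp
    push_cast at h1
    linear_combination h1 + d * hrel
  have hd : d = 0 ∧ (c = 0 ∨ b = 0) := by
    rcases mul_eq_zero.1 hprod with h | h
    · obtain ⟨h1, h2⟩ := hlin θ hθ c d h
      exact ⟨h2, Or.inl h1⟩
    · obtain ⟨h1, h2⟩ := hlin ξ hξ b d h
      exact ⟨h2, Or.inr h1⟩
  obtain ⟨hd0, hcb⟩ := hd
  subst hd0
  rcases hcb with hc | hb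
  · subst hc
    obtain ⟨h1, h2⟩ := hlin θ hθ a b (by simpa using hrel)
    exact hne ⟨h1, h2, rfl, rfl⟩
  · subst hb
    obtain ⟨h1, h2⟩ := hlin ξ hξ a c (by simpa using hrel)
    exact hne ⟨h1, rfl, h2, rfl⟩

theorem gcd_le_delta (a b c d q p : ℤ) (hcop : IsCoprime q p) (hΔ : b * c - a * d ≠ 0) :
    Int.gcd (b * q + d * p) (-(a * q + c * p)) ≤ (b * c - a * d).natAbs := by
  set g := Int.gcd (b * q + d * p) (-(a * q + c * p)) with hg
  have h1 : (g : ℤ) ∣ b * q + d * p := Int.gcd_dvd_left _ _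
  have h2 : (g : ℤ) ∣ -(a * q + c * p) := Int.gcd_dvd_right _ _
  have h3 : (g : ℤ) ∣ (b * c - a * d) * q := by
    have : (b * c - a * d) * q = c * (b * q + d * p) + d * (-(a * q + c * p)) := by ring
    rw [this]
    exact dvd_add (h1.mul_left _) (h2.mul_left _)
  have h4 : (g : ℤ) ∣ (b * c - a * d) * p := by
    have : (b * c - a * d) * p = -(a * (b * q + d * p) + b * (-(a * q + c * p))) := by ring
    rw [this]
    exact (dvd_add (h1.mul_left _) (h2.mul_left _)).neg_right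
  have h5 : (g : ℤ) ∣ b * c - a * d := by
    obtain ⟨u, v, huv⟩ := hcop
    have : b * c - a * d = u * ((b * c - a * d) * q) + v * ((b * c - a * d) * p) := by
      linear_combination -(b * c - a * d) * huv
    rw [this]
    exact dvd_add (h3.mul_left _) (h4.mul_left _)
  have h6 : g ∣ (b * c - a * d).natAbs := Int.natCast_dvd.1 h5
  exact Nat.le_of_dvd (Int.natAbs_pos.2 hΔ) h6

/-- The transfer: a relation `a + b θ + c ξ + d ξ θ = 0` makes the limit values of `ξ` multiples of `1 / |b c - a d|`. -/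
theorem transfer (θ ξ : ℝ) (hF : Fast θ) (hξ : Irrational ξ) (a b c d : ℤ)
    (hne : ¬(a = 0 ∧ b = 0 ∧ c = 0 ∧ d = 0)) (hrel : (a : ℝ) + b * θ + c * ξ + d * (ξ * θ) = 0) :
    ∃ D : ℕ, 1 ≤ D ∧ ∀ l : ℝ, ApproxLimit ξ l → ∃ m : ℕ, l = m / D := by
  have hθ := hF.irrational
  have hΔ := delta_ne θ ξ hθ hξ a b c d hne hrel
  set Δ : ℤ := b * c - a * d with hΔdef
  have hD1 : 1 ≤ Δ.natAbs := Int.natAbs_pos.2 hΔ
  refine ⟨Δ.natAbs, hD1, fun l hl => ?_⟩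
  have hl0 := nonneg_of_approx ξ l hl
  have hDR : ((Δ.natAbs : ℕ) : ℝ) = |(Δ : ℝ)| := by
    rw [Nat.cast_natAbs]; push_cast; rfl
  have hDpos : (0 : ℝ) < |(Δ : ℝ)| := by rw [← hDR]; exact_mod_cast hD1
  have hDone : (1 : ℝ) ≤ |(Δ : ℝ)| := by rw [← hDR]; exact_mod_cast hD1
  -- it suffices that `|Δ| l` is an integer
  suffices hint : |(Δ : ℝ)| * l = round (|(Δ : ℝ)| * l) by
    have hn : 0 ≤ round (|(Δ : ℝ)| * l) := by
      have : (0 : ℝ) ≤ (round (|(Δ : ℝ)| * l) : ℝ) := by rw [← hint]; positivity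
      exact_mod_cast this
    obtain ⟨m, hm⟩ := Int.eq_ofNat_of_zero_le hn
    refine ⟨m, ?_⟩
    rw [hDR, eq_div_iff hDpos.ne', mul_comm, hint, hm]
    simp
  by_contra hnot
  set η : ℝ := |(|(Δ : ℝ)| * l) - round (|(Δ : ℝ)| * l)| with hη
  have hη0 : 0 < η := abs_pos.2 (sub_ne_zero.2 hnot)
  -- constants
  set κ : ℝ := |(d : ℝ) * (c + d * θ)| with hκ
  have hκ0 : 0 ≤ κ := abs_nonneg _
  have hw : (b : ℝ) + d * ξ ≠ 0 := by
    intro h0
    have h1 : ((c : ℝ) + d * θ) * (b + d * ξ) = Δ := by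
      rw [hΔdef]; push_cast; linear_combination d * hrel
    rw [h0, mul_zero] at h1
    exact hΔ (by exact_mod_cast h1.symm)
  have hw0 : 0 < |(b : ℝ) + d * ξ| := abs_pos.2 hw
  set M : ℝ := |(Δ : ℝ)| * (l + 1) + κ * (l + 1) ^ 2 with hM
  have hM1 : 1 ≤ M := by
    have h1 : 1 ≤ |(Δ : ℝ)| * (l + 1) := by nlinarith
    have h2 : 0 ≤ κ * (l + 1) ^ 2 := by positivity
    linarith
  obtain ⟨Q0, hQ0⟩ := key2 θ hF M (η / 4) hM1 (by linarith) Δ.natAbs hD1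
  -- choose the rational
  obtain ⟨N1, hN1⟩ := exists_nat_gt ((|Q0| + |(d : ℝ)| * (l + 1)) / |(b : ℝ) + d * ξ|)
  obtain ⟨N2, hN2⟩ := exists_nat_gt (4 * (κ * (l + 1) ^ 2) / η)
  set ε : ℝ := min 1 (η / (4 * |(Δ : ℝ)|)) with hε
  have hε0 : 0 < ε := by rw [hε]; positivity
  obtain ⟨r, hrN, hr⟩ := hl ε hε0 (max 1 (max N1 N2))
  have hq1 : 1 ≤ r.den := le_trans (le_max_left _ _) hrN
  have hqN1 : N1 ≤ r.den := le_trans (le_trans (le_max_left _ _) (le_max_right _ _)) hrN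
  have hqN2 : N2 ≤ r.den := le_trans (le_trans (le_max_right _ _) (le_max_right _ _)) hrN
  set q : ℤ := (r.den : ℤ) with hq
  set p : ℤ := r.num with hp
  have hqR : (q : ℝ) = r.den := by rw [hq]; simp
  have hqR1 : (1 : ℝ) ≤ q := by rw [hqR]; exact_mod_cast hq1
  have hqR0 : (0 : ℝ) < q := by linarith
  have hcop : IsCoprime q p := by
    have h1 := r.reduced
    rw [Int.isCoprime_iff_gcd_eq_one, Int.gcd_comm]
    exact h1
  set f : ℝ := q * ξ - p with hf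
  have hrr : (r : ℝ) = p / q := by
    rw [hqR, hp]
    exact_mod_cast (Rat.num_div_den r).symm
  have hval : (r.den : ℝ) ^ 2 * |ξ - r| = q * |f| := by
    rw [← hqR]
    have : ξ - r = f / q := by rw [hrr, hf]; field_simp
    rw [this, abs_div, abs_of_pos hqR0]
    field_simp
  rw [hval] at hr
  have hε1 : ε ≤ 1 := min_le_left _ _
  have hε2 : |(Δ : ℝ)| * ε ≤ η / 4 := by
    have h1 : ε ≤ η / (4 * |(Δ : ℝ)|) := min_le_right _ _
    calc |(Δ : ℝ)| * ε ≤ |(Δ : ℝ)| * (η / (4 * |(Δ : ℝ)|)) := mul_le_mul_of_nonneg_left h1 hDpos.le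
      _ = η / 4 := by field_simp
  have hfq : q * |f| ≤ l + 1 := by
    rw [abs_lt] at hr
    linarith [hr.2]
  have hf1 : |f| ≤ l + 1 := le_trans (le_mul_of_one_le_left (abs_nonneg _) hqR1) hfq
  have hff : κ * f ^ 2 ≤ κ * (l + 1) ^ 2 := by
    apply mul_le_mul_of_nonneg_left _ hκ0
    rw [← sq_abs f]
    exact pow_le_pow_left₀ (abs_nonneg _) hf1 2
  have hff2 : κ * f ^ 2 ≤ η / 4 := by
    have h1 : (q : ℝ) * (κ * f ^ 2) ≤ κ * (l + 1) ^ 2 := by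
      have h2 : (q : ℝ) * f ^ 2 ≤ (l + 1) ^ 2 := by
        rw [← sq_abs f]
        calc (q : ℝ) * |f| ^ 2 = (q * |f|) * |f| := by ring
          _ ≤ (l + 1) * (l + 1) := mul_le_mul hfq hf1 (abs_nonneg _) (by linarith)
          _ = (l + 1) ^ 2 := by ring
      calc (q : ℝ) * (κ * f ^ 2) = κ * (q * f ^ 2) := by ring
        _ ≤ κ * (l + 1) ^ 2 := mul_le_mul_of_nonneg_left h2 hκ0
    have h3 : 4 * (κ * (l + 1) ^ 2) / η < q := by
      have : (N2 : ℝ) ≤ q := by rw [hqR]; exact_mod_cast hqN2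
      linarith
    rw [div_lt_iff₀ hη0] at h3
    -- q * (κ f²) ≤ q * η / 4
    have h4 : (q : ℝ) * (κ * f ^ 2) ≤ q * (η / 4) := by linarith
    exact le_of_mul_le_mul_left h4 hqR0
  -- the image vector
  set Q : ℤ := b * q + d * p with hQ
  set P : ℤ := -(a * q + c * p) with hP
  have hgcd : Int.gcd Q P ≤ Δ.natAbs := gcd_le_delta a b c d q p hcop hΔ
  have hQE : (Q : ℝ) = q * (b + d * ξ) - d * f := by rw [hQ, hf]; push_cast; ring
  have hEE : (Q : ℝ) * θ - P = -((c + d * θ) * f) := by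
    rw [hQ, hP, hf]; push_cast; linear_combination (q : ℝ) * hrel
  have hprod : (Q : ℝ) * (Q * θ - P) = -(Δ * (q * f)) + d * (c + d * θ) * f ^ 2 := by
    have h1 : ((c : ℝ) + d * θ) * (b + d * ξ) = Δ := by
      rw [hΔdef]; push_cast; linear_combination d * hrel
    rw [hEE, hQE]
    linear_combination (-(q * f)) * h1
  have hQbig : Q0 ≤ |(Q : ℝ)| := by
    have h1 : q * |(b : ℝ) + d * ξ| - |(d : ℝ)| * |f| ≤ |(Q : ℝ)| := by
      rw [hQE]
      calc q * |(b : ℝ) + d * ξ| - |(d : ℝ)| * |f| = |(q : ℝ) * (b + d * ξ)| - |(d : ℝ) * f| := by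
            rw [abs_mul, abs_mul, abs_of_pos hqR0]
        _ ≤ _ := abs_sub_abs_le_abs_sub _ _
    have h2 : |Q0| + |(d : ℝ)| * (l + 1) < q * |(b : ℝ) + d * ξ| := by
      have : (N1 : ℝ) ≤ q := by rw [hqR]; exact_mod_cast hqN1
      rw [div_lt_iff₀ hw0] at hN1
      calc |Q0| + |(d : ℝ)| * (l + 1) < N1 * |(b : ℝ) + d * ξ| := hN1
        _ ≤ q * |(b : ℝ) + d * ξ| := mul_le_mul_of_nonneg_right this hw0.le
    have h3 : |(d : ℝ)| * |f| ≤ |(d : ℝ)| * (l + 1) := mul_le_mul_of_nonneg_left hf1 (abs_nonneg _)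
    linarith [le_abs_self Q0]
  have hvalM : |(Q : ℝ)| * |(Q : ℝ) * θ - P| ≤ M := by
    rw [← abs_mul, hprod]
    calc |-((Δ : ℝ) * (q * f)) + d * (c + d * θ) * f ^ 2|
        ≤ |-((Δ : ℝ) * (q * f))| + |d * (c + d * θ) * f ^ 2| := abs_add_le _ _
      _ = |(Δ : ℝ)| * (q * |f|) + κ * f ^ 2 := by
          rw [abs_neg, abs_mul, abs_mul, abs_of_pos hqR0, abs_mul ((d : ℝ) * (c + d * θ)),
            abs_of_nonneg (sq_nonneg f)]
      _ ≤ |(Δ : ℝ)| * (l + 1) + κ * (l + 1) ^ 2 :=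
          add_le_add (mul_le_mul_of_nonneg_left hfq hDpos.le) hff
  obtain ⟨m, hm⟩ := hQ0 Q P hgcd hQbig hvalM
  -- conclude
  have h1 : |(-(Δ * (q * f)) : ℝ) - m| ≤ η / 2 := by
    have e : (-(Δ * (q * f)) : ℝ) - m = ((Q : ℝ) * (Q * θ - P) - m) - d * (c + d * θ) * f ^ 2 := by
      rw [hprod]; ring
    rw [e]
    calc _ ≤ |(Q : ℝ) * (Q * θ - P) - m| + |d * (c + d * θ) * f ^ 2| := abs_sub _ _
      _ = |(Q : ℝ) * (Q * θ - P) - m| + κ * f ^ 2 := by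
          rw [abs_mul ((d : ℝ) * (c + d * θ)), abs_of_nonneg (sq_nonneg f)]
      _ ≤ η / 4 + η / 4 := add_le_add hm hff2
      _ = η / 2 := by ring
  have h2 : |(|(Δ : ℝ)| * (q * |f|)) - (|(m : ℝ)|)| ≤ η / 2 := by
    have h3 := (abs_abs_sub_abs_le (-(Δ * (q * f)) : ℝ) (m : ℝ)).trans h1
    rwa [abs_neg, abs_mul, abs_mul, abs_of_pos hqR0] at h3
  have h3 : |(|(Δ : ℝ)| * l) - (|(m : ℝ)|)| < η := by
    have e : (|(Δ : ℝ)| * l) - |(m : ℝ)| =
        ((|(Δ : ℝ)| * (q * |f|)) - |(m : ℝ)|) - |(Δ : ℝ)| * (q * |f| - l) := by ring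
    rw [e]
    calc _ ≤ |(|(Δ : ℝ)| * (q * |f|)) - (|(m : ℝ)|)| + |(|(Δ : ℝ)| * (q * |f| - l))| := abs_sub _ _
      _ = |(|(Δ : ℝ)| * (q * |f|)) - (|(m : ℝ)|)| + |(Δ : ℝ)| * |q * |f| - l| := by
          rw [abs_mul, abs_abs]
      _ ≤ η / 2 + |(Δ : ℝ)| * ε := add_le_add h2 (mul_le_mul_of_nonneg_left hr.le hDpos.le)
      _ < η := by linarith
  have h4 : η ≤ |(|(Δ : ℝ)| * l) - ((|m| : ℤ) : ℝ)| := round_le _ _
  rw [Int.cast_abs] at h4
  linarith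

end Pool.Agent.H51.AS
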