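import Pool.Agent.H51.AS.Transfer

set_option autoImplicit false

/-! # `0` is a limit value -/

namespace Pool.Agent.H51.AS

open Filter

theorem zero_of_small (ξ : ℝ) (hξ : Irrational ξ)
    (h : ∀ ε : ℝ, 0 < ε → ∃ r : ℚ, (r.den : ℝ) ^ 2 * |ξ - r| < ε) : ApproxLimit ξ 0 := by
  intro ε hε N
  have h1 := hξ.eventually_forall_le_dist_cast_rat_of_den_le N
  have h2 : ∀ᶠ δ : ℝ in nhdsWithin 0 (Set.Ioi 0), (∀ r : ℚ, r.den ≤ N → δ ≤ dist ξ r) ∧ 0 < δ :=
    (h1.filter_mono nhdsWithin_le_nhds).and (eventually_mem_nhdsWithin)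
  obtain ⟨δ, hδ, hδ0⟩ := h2.exists
  obtain ⟨r, hr⟩ := h (min ε δ) (lt_min hε hδ0)
  have hd1 : (1 : ℝ) ≤ r.den := by exact_mod_cast r.den_pos
  have hle : |ξ - r| ≤ (r.den : ℝ) ^ 2 * |ξ - r| :=
    le_mul_of_one_le_left (abs_nonneg _) (one_le_pow₀ hd1)
  refine ⟨r, ?_, ?_⟩
  · by_contra hcon
    have h3 := hδ r (by omega)
    rw [Real.dist_eq] at h3
    have h4 := lt_of_lt_of_le hr (min_le_right _ _)
    linarith
  · rw [sub_zero, abs_of_nonneg (by positivity)]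
    exact lt_of_lt_of_le hr (min_le_left _ _)

theorem zero_limit (θ ξ : ℝ) (hF : Fast θ) (hξ : Irrational ξ) (a b c d : ℤ)
    (hne : ¬(a = 0 ∧ b = 0 ∧ c = 0 ∧ d = 0)) (hrel : (a : ℝ) + b * θ + c * ξ + d * (ξ * θ) = 0) :
    ApproxLimit ξ 0 := by
  have hθ := hF.irrational
  have hΔ := delta_ne θ ξ hθ hξ a b c d hne hrel
  apply zero_of_small ξ hξ
  intro ε hε
  obtain ⟨p, q, hq0, hmono, htop, hdet, hA⟩ := hF
  have hqpos : ∀ j, 0 < q j := fun j => lt_of_lt_of_le hq0 (hmono (Nat.zero_le j))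
  set w : ℝ := c + d * θ with hw
  set v : ℝ := b + d * ξ with hv
  have hwv : w * v = ((b * c - a * d : ℤ) : ℝ) := by
    rw [hw, hv]; push_cast; linear_combination d * hrel
  have hw0 : w ≠ 0 := by
    intro h0
    rw [h0, zero_mul] at hwv
    exact hΔ (by exact_mod_cast hwv.symm)
  have hwa : 0 < |w| := abs_pos.2 hw0
  set K : ℝ := |v| * (|w| + |(d : ℝ)|) + 1 with hK
  have hK0 : 0 < K := by rw [hK]; positivity
  -- choose the index
  have ev1 : ∀ᶠ j in atTop, (q j : ℝ) * |(q j : ℝ) * θ - p j| < min 1 (ε / K) :=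
    hA.eventually_lt_const (lt_min one_pos (by positivity))
  have ev2 : ∀ᶠ j in atTop, (|(d : ℝ)| / |w|) < (q j : ℝ) := htop.eventually_gt_atTop _
  obtain ⟨j, hj1, hj2⟩ := (ev1.and ev2).exists
  set e : ℝ := (q j : ℝ) * θ - p j with he
  have hq1 : (1 : ℝ) ≤ q j := by exact_mod_cast hqpos j
  have hq0' : (0 : ℝ) < q j := by linarith
  have he1 : |e| ≤ 1 := by
    have h1 : |e| ≤ q j * |e| := le_mul_of_one_le_left (abs_nonneg _) hq1
    exact (h1.trans_lt (lt_of_lt_of_le hj1 (min_le_left _ _))).le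
  have he2 : (q j : ℝ) * |e| < ε / K := lt_of_lt_of_le hj1 (min_le_right _ _)
  set U : ℤ := c * q j + d * p j with hU
  set V : ℤ := -(a * q j + b * p j) with hV
  have hUE : (U : ℝ) = q j * w - d * e := by rw [hU, hw, he]; push_cast; ring
  have hVE : (U : ℝ) * ξ - V = -(e * v) := by
    rw [hU, hV, he, hv]; push_cast; linear_combination (q j : ℝ) * hrel
  have hU0 : (U : ℝ) ≠ 0 := by
    intro h0
    rw [h0] at hUE
    have h1 : (q j : ℝ) * |w| = |(d : ℝ)| * |e| := by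
      have h3 : (q j : ℝ) * w = d * e := by linarith
      calc (q j : ℝ) * |w| = |(q j : ℝ) * w| := by rw [abs_mul, abs_of_pos hq0']
        _ = |(d : ℝ) * e| := by rw [h3]
        _ = |(d : ℝ)| * |e| := abs_mul _ _
    rw [div_lt_iff₀ hwa] at hj2
    have h2 : |(d : ℝ)| * |e| ≤ |(d : ℝ)| * 1 := mul_le_mul_of_nonneg_left he1 (abs_nonneg _)
    linarith
  refine ⟨(V : ℚ) / U, ?_⟩
  have hUZ : U ≠ 0 := by
    rintro h0
    exact hU0 (by rw [h0]; simp)
  have hden : ((((V : ℚ) / U).den : ℕ) : ℤ) ∣ U := by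
    have h1 := Rat.den_dvd V U
    rwa [Rat.divInt_eq_div] at h1
  have hdenle : ((((V : ℚ) / U).den : ℕ) : ℝ) ≤ |(U : ℝ)| := by
    have h1 := Int.le_of_dvd (abs_pos.2 hUZ) ((dvd_abs _ _).2 hden)
    have h2 : (((((V : ℚ) / U).den : ℕ) : ℤ) : ℝ) ≤ ((|U| : ℤ) : ℝ) := Int.cast_le.2 h1
    rw [Int.cast_abs] at h2
    simpa using h2
  have hval : |(U : ℝ)| ^ 2 * |ξ - (((V : ℚ) / U : ℚ) : ℝ)| = |(U : ℝ)| * (|e| * |v|) := by
    have h1 : ξ - (((V : ℚ) / U : ℚ) : ℝ) = (U * ξ - V) / U := by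
      push_cast
      field_simp
    have hUa : |(U : ℝ)| ≠ 0 := abs_ne_zero.2 hU0
    rw [h1, hVE, abs_div, abs_neg, abs_mul]
    field_simp
  calc ((((V : ℚ) / U).den : ℕ) : ℝ) ^ 2 * |ξ - (((V : ℚ) / U : ℚ) : ℝ)|
      ≤ |(U : ℝ)| ^ 2 * |ξ - (((V : ℚ) / U : ℚ) : ℝ)| :=
        mul_le_mul_of_nonneg_right (pow_le_pow_left₀ (by positivity) hdenle 2) (abs_nonneg _)
    _ = |(U : ℝ)| * (|e| * |v|) := hval
    _ ≤ (q j * (|w| + |(d : ℝ)|)) * (|e| * |v|) := by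
        apply mul_le_mul_of_nonneg_right _ (by positivity)
        rw [hUE]
        calc |(q j : ℝ) * w - d * e| ≤ |(q j : ℝ) * w| + |(d : ℝ) * e| := abs_sub _ _
          _ = q j * |w| + |(d : ℝ)| * |e| := by rw [abs_mul, abs_mul, abs_of_pos hq0']
          _ ≤ q j * |w| + |(d : ℝ)| * q j := by
              gcongr
              linarith
          _ = q j * (|w| + |(d : ℝ)|) := by ring
    _ = (|v| * (|w| + |(d : ℝ)|)) * (q j * |e|) := by ring
    _ ≤ K * (q j * |e|) := by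
        apply mul_le_mul_of_nonneg_right _ (by positivity)
        rw [hK]; linarith
    _ < K * (ε / K) := mul_lt_mul_of_pos_left he2 hK0
    _ = ε := by field_simp

end Pool.Agent.H51.AS
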